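import Pool.Agent.H56.LN.One

/-! Sums of a fine function at shifts near the values of polynomials at integers with restricted digits: all the shifts in
windows, positive and negative arguments, finitely many sums at once. -/

set_option autoImplicit false

namespace Pool.Agent.H56.LN

open Finset
open Pool.Agent.Y885
open Pool.Agent.H373R2.T7
open Pool.Agent.H56.PD

/-- the even extension of a function -/
noncomputable def ev (θ : ℕ → ℝ) (z : ℤ) : ℂ :=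
  exI (fun m => ((θ m : ℝ) : ℂ)) z + exI (fun m => ((θ m : ℝ) : ℂ)) (-z)

lemma ev_norm (θ : ℕ → ℝ) (hθ : ∀ n, ‖((θ n : ℝ) : ℂ)‖ ≤ 1) (z : ℤ) : ‖ev θ z‖ ≤ 1 := by
  unfold ev exI
  split_ifs with h1 h2 h2
  · omega
  · rw [add_zero]; exact hθ _
  · rw [zero_add]; exact hθ _
  · simp

/-- reversal of the order of summation -/
lemma reverse (f : ℤ → ℂ) (g : ℕ → ℂ) (α X M : ℕ) (hM : M ≤ X) (z : ℤ) :
    ∑ m ∈ Icc 1 M, g m * f (-(((α * m : ℕ) : ℤ) + z)) =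
      ∑ m ∈ Icc 1 X, g (X + 1 - m) * f (((α * m : ℕ) : ℤ) + (-z - α * (X + 1))) -
      ∑ m ∈ Icc 1 (X - M), g (X + 1 - m) * f (((α * m : ℕ) : ℤ) + (-z - α * (X + 1))) := by
  have h1 : Icc 1 X = Icc 1 (X - M) ∪ Icc (X - M + 1) X := by
    ext m
    simp only [mem_union, mem_Icc]
    omega
  have h2 : Disjoint (Icc 1 (X - M)) (Icc (X - M + 1) X) := by
    rw [Finset.disjoint_left]
    intro m hm1 hm2
    rw [mem_Icc] at hm1 hm2
    omega
  rw [h1, sum_union h2, add_sub_cancel_left]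
  apply sum_nbij' (fun m => X + 1 - m) (fun m => X + 1 - m)
  · intro m hm
    rw [mem_Icc] at hm ⊢
    omega
  · intro m hm
    rw [mem_Icc] at hm ⊢
    omega
  · intro m hm
    rw [mem_Icc] at hm
    omega
  · intro m hm
    rw [mem_Icc] at hm
    omega
  · intro m hm
    rw [mem_Icc] at hm
    have e1 : X + 1 - (X + 1 - m) = m := by omega
    rw [e1]
    congr 2
    push_cast [Nat.cast_sub (show m ≤ X + 1 by omega)]
    ring

/-- one coordinate -/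
theorem one_coord (b n : ℕ) (hb : 2 ≤ b) (F : MvPolynomial (Fin n) ℤ) (hF : 1 ≤ F.totalDegree) (B W A T U V : ℕ)
    (θ : ℕ → ℝ) (hθ : Fine θ) :
    ∃ N₀ : ℕ, ∀ N : ℕ, N₀ ≤ N → ∀ k : ℕ, b ^ (F.totalDegree * k) ≤ B * N →
      (N : ℝ) ≤ (b : ℝ) ^ (F.totalDegree * k) * Real.log N ^ W →
      ∀ Dg : Fin n → ℕ → Finset ℕ, (∀ i, ∀ j < k, Dg i j ⊆ range b ∧ 2 ≤ (Dg i j).card) →
      ∀ c : ℤ, |c| ≤ (B : ℤ) * N → ∀ (ι : Type) [Fintype ι], (Fintype.card ι : ℝ) ≤ Real.log N ^ T →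
      ∀ (α : ι → ℕ) (g : ι → ℕ → ℂ), (∀ l, 1 ≤ α l) → (∀ l m, ‖g l m‖ ≤ Real.log N ^ T) →
      ∀ Ω : Finset (Fin n → ℕ), (Ω = Fintype.piFinset fun i => withDigits b k (Dg i)) →
      ∀ bad : (Fin n → ℕ) → Prop, ∀ _hd : DecidablePred bad,
      (∀ x ∈ Ω, bad x → ∃ z : ℤ, |((z - (c + MvPolynomial.eval (fun j => (x j : ℤ)) F) : ℤ) : ℝ)| ≤ Real.log N ^ A ∧
        ∃ l, ∃ M : ℕ, α l * M ≤ B * N ∧ (N : ℝ) / Real.log N ^ U <
        ‖∑ m ∈ Icc 1 M, g l m * ev θ (((α l * m : ℕ) : ℤ) + z)‖) →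
      ((Ω.filter bad).card : ℝ) ≤ (Ω.card : ℝ) / Real.log N ^ V := by
  classical
  obtain ⟨V', hV'⟩ : ∃ V', V' = V + (A + 1) + T + 1 := ⟨_, rfl⟩
  obtain ⟨N1, h1⟩ := one_shift b n hb F hF B (B + 1) W T (U + 1) V' θ hθ
  obtain ⟨N2, h2⟩ := one_shift b n hb (-F) (by rw [MvPolynomial.totalDegree_neg]; exact hF) B (3 * B + 1) W T (U + 2) V' θ hθ
  obtain ⟨N3, h3⟩ := ev_L' 5
  obtain ⟨N4, h4⟩ := ev_log' (A + 1) 1
  refine ⟨N1 + N2 + N3 + N4 + 3, fun N hN k hk1 hk2 Dg hDg c hc ι _ hι α g hα hg Ω hΩ bad hd hbad => ?_⟩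
  have hNpos : (0 : ℝ) < N := by exact_mod_cast (by omega : 0 < N)
  have hL5 := h3 N (by omega)
  have a2 := h4 N (by omega)
  have h1' := h1 N (by omega)
  have h2' := h2 N (by omega)
  obtain ⟨L, hL⟩ : ∃ L, L = Real.log (N : ℝ) := ⟨_, rfl⟩
  rw [← hL] at hL5 a2 hk2 hι hg hbad h1' h2' ⊢
  rw [one_mul] at a2
  have hL0 : 0 < L := by linarith
  have hL1 : 1 ≤ L := by linarith
  -- the window
  obtain ⟨w, hw⟩ : ∃ w : ℕ, w = ⌈L ^ A⌉₊ := ⟨_, rfl⟩
  have hw1 : L ^ A ≤ w := by rw [hw]; exact Nat.le_ceil _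
  have hw2 : 2 * (w : ℝ) + 1 ≤ L ^ (A + 1) := by
    have e1 : (w : ℝ) < L ^ A + 1 := by rw [hw]; exact Nat.ceil_lt_add_one (by positivity)
    have e2 : 1 ≤ L ^ A := one_le_pow₀ hL1
    rw [pow_succ]
    nlinarith
  have hwN : (w : ℝ) ≤ N := by
    have e1 : L ^ (A + 1) ≤ N := by
      refine a2.trans ?_
      rw [Real.sqrt_le_left hNpos.le]
      have : (1 : ℝ) ≤ N := by exact_mod_cast (by omega : 1 ≤ N)
      nlinarith
    have e4 : (0 : ℝ) ≤ w := Nat.cast_nonneg _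
    linarith
  have hwN' : (w : ℤ) ≤ N := by exact_mod_cast hwN
  obtain ⟨Sh, hSh⟩ : ∃ Sh : Finset ℤ, Sh = Icc (-(w : ℤ)) w := ⟨_, rfl⟩
  have hShc : (Sh.card : ℝ) ≤ L ^ (A + 1) := by
    rw [hSh, Int.card_Icc]
    have e1 : ((w : ℤ) + 1 - -(w : ℤ)) = ((2 * w + 1 : ℕ) : ℤ) := by push_cast; ring
    rw [e1, Int.toNat_natCast]
    push_cast
    exact hw2
  obtain ⟨Pp, hPp⟩ : ∃ Pp : ℤ → ι → (Fin n → ℕ) → Prop, Pp = fun δ l x => ∃ M : ℕ, α l * M ≤ B * N ∧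
      (N : ℝ) / L ^ (U + 1) < ‖∑ m ∈ Icc 1 M, g l m * exI (fun m => ((θ m : ℝ) : ℂ))
        (((α l * m : ℕ) : ℤ) + ((c + δ) + MvPolynomial.eval (fun j => (x j : ℤ)) F))‖ := ⟨_, rfl⟩
  obtain ⟨Pm, hPm⟩ : ∃ Pm : ℤ → ι → (Fin n → ℕ) → Prop, Pm = fun δ l x => α l ≤ B * N ∧ ∃ M : ℕ, α l * M ≤ B * N ∧
      (N : ℝ) / L ^ (U + 2) < ‖∑ m ∈ Icc 1 M, g l (B * N / α l + 1 - m) * exI (fun m => ((θ m : ℝ) : ℂ))
        (((α l * m : ℕ) : ℤ) + ((-(c + δ) - α l * ((B * N / α l : ℕ) + 1)) +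
          MvPolynomial.eval (fun j => (x j : ℤ)) (-F)))‖ := ⟨_, rfl⟩
  have hpos : ∀ δ ∈ Sh, ∀ l, ((Ω.filter (Pp δ l)).card : ℝ) ≤ (Ω.card : ℝ) / L ^ V' := by
    intro δ hδ l
    rw [hSh, mem_Icc] at hδ
    refine h1' k hk1 hk2 Dg hDg (c + δ) ?_ (α l) (hα l) (g l) (fun m _ _ => hg l m) Ω hΩ (Pp δ l) _ (fun x _ hx => ?_)
    · rw [abs_le] at hc ⊢
      push_cast
      constructor <;> nlinarith [hc.1, hc.2, hδ.1, hδ.2]
    · rw [hPp] at hx
      exact hx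
  have hneg : ∀ δ ∈ Sh, ∀ l, ((Ω.filter (Pm δ l)).card : ℝ) ≤ (Ω.card : ℝ) / L ^ V' := by
    intro δ hδ l
    rw [hSh, mem_Icc] at hδ
    by_cases hα2 : α l ≤ B * N
    · refine h2' k (by rw [MvPolynomial.totalDegree_neg]; exact hk1) (by rw [MvPolynomial.totalDegree_neg]; exact hk2)
        Dg hDg (-(c + δ) - α l * ((B * N / α l : ℕ) + 1)) ?_ (α l) (hα l) (fun m => g l (B * N / α l + 1 - m))
        (fun m _ _ => hg l _) Ω hΩ (Pm δ l) _ (fun x _ hx => ?_)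
      · have e1 : α l * (B * N / α l) ≤ B * N := Nat.mul_div_le _ _
        have e2 : ((α l : ℤ)) * ((B * N / α l : ℕ) : ℤ) ≤ (B : ℤ) * N := by exact_mod_cast e1
        have e3 : (α l : ℤ) ≤ (B : ℤ) * N := by exact_mod_cast hα2
        have e4 : (0 : ℤ) ≤ (α l : ℤ) * ((B * N / α l : ℕ) : ℤ) := by positivity
        have e5 : (0 : ℤ) ≤ (α l : ℤ) := by positivity
        rw [abs_le] at hc ⊢
        rw [mul_add, mul_one]
        push_cast at e2 e4 ⊢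
        constructor <;> nlinarith [hc.1, hc.2, hδ.1, hδ.2]
      · rw [hPm] at hx
        exact hx.2
    · have : Ω.filter (Pm δ l) = ∅ := by
        apply filter_false_of_mem
        intro x _ hx
        rw [hPm] at hx
        exact hα2 hx.1
      rw [this, card_empty, Nat.cast_zero]
      positivity
  -- the cover
  have hcover : Ω.filter bad ⊆ Sh.biUnion (fun δ => (univ : Finset ι).biUnion (fun l => Ω.filter (Pp δ l) ∪ Ω.filter (Pm δ l))) := by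
    intro x hx
    rw [mem_filter] at hx
    obtain ⟨z, hz, l, M, hM, hlt⟩ := hbad x hx.1 hx.2
    rw [mem_biUnion]
    obtain ⟨δ, hδ⟩ : ∃ δ, δ = z - (c + MvPolynomial.eval (fun j => (x j : ℤ)) F) := ⟨_, rfl⟩
    have hzδ : z = (c + δ) + MvPolynomial.eval (fun j => (x j : ℤ)) F := by rw [hδ]; ring
    have hδS : δ ∈ Sh := by
      rw [← hδ] at hz
      have e6 : |δ| ≤ (w : ℤ) := by exact_mod_cast hz.trans hw1
      rw [hSh, mem_Icc]
      exact abs_le.1 e6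
    refine ⟨δ, hδS, ?_⟩
    rw [mem_biUnion]
    refine ⟨l, mem_univ _, ?_⟩
    rw [mem_union, mem_filter, mem_filter]
    have hsplit : ∑ m ∈ Icc 1 M, g l m * ev θ (((α l * m : ℕ) : ℤ) + z) =
        ∑ m ∈ Icc 1 M, g l m * exI (fun m => ((θ m : ℝ) : ℂ)) (((α l * m : ℕ) : ℤ) + z) +
        ∑ m ∈ Icc 1 M, g l m * exI (fun m => ((θ m : ℝ) : ℂ)) (-(((α l * m : ℕ) : ℤ) + z)) := by
      rw [← sum_add_distrib]
      apply sum_congr rfl
      intro m _
      unfold ev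
      ring
    rw [hsplit] at hlt
    have hLU : 0 < L ^ U := by positivity
    have hQ1 : (N : ℝ) / L ^ (U + 1) ≤ N / L ^ U / 2 := by
      rw [pow_succ, div_div, div_le_div_iff₀ (by positivity) (by positivity)]
      apply mul_le_mul_of_nonneg_left _ hNpos.le
      apply mul_le_mul_of_nonneg_left _ hLU.le
      linarith
    have hQ2 : (N : ℝ) / L ^ (U + 2) ≤ N / L ^ U / 4 := by
      rw [pow_add, div_div, div_le_div_iff₀ (by positivity) (by positivity)]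
      apply mul_le_mul_of_nonneg_left _ hNpos.le
      apply mul_le_mul_of_nonneg_left _ hLU.le
      nlinarith
    by_cases hfirst : (N : ℝ) / L ^ (U + 1) < ‖∑ m ∈ Icc 1 M, g l m * exI (fun m => ((θ m : ℝ) : ℂ)) (((α l * m : ℕ) : ℤ) + z)‖
    · left
      refine ⟨hx.1, ?_⟩
      rw [hPp]
      refine ⟨M, hM, ?_⟩
      rw [← hzδ]
      exact hfirst
    · right
      refine ⟨hx.1, ?_⟩
      push Not at hfirst
      have hM1 : 1 ≤ M := by
        by_contra hcon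
        have : M = 0 := by omega
        subst this
        simp only [show Icc 1 0 = (∅ : Finset ℕ) from rfl, sum_empty, add_zero, norm_zero] at hlt
        have : 0 < (N : ℝ) / L ^ U := by positivity
        linarith
      have hα2 : α l ≤ B * N := le_trans (Nat.le_mul_of_pos_right _ hM1) hM
      have hMX : M ≤ B * N / α l := by
        rw [Nat.le_div_iff_mul_le (by have := hα l; omega), mul_comm]
        exact hM
      have hsec : (N : ℝ) / L ^ U / 2 < ‖∑ m ∈ Icc 1 M, g l m * exI (fun m => ((θ m : ℝ) : ℂ)) (-(((α l * m : ℕ) : ℤ) + z))‖ := by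
        have := norm_add_le (∑ m ∈ Icc 1 M, g l m * exI (fun m => ((θ m : ℝ) : ℂ)) (((α l * m : ℕ) : ℤ) + z))
          (∑ m ∈ Icc 1 M, g l m * exI (fun m => ((θ m : ℝ) : ℂ)) (-(((α l * m : ℕ) : ℤ) + z)))
        linarith
      rw [reverse _ _ _ (B * N / α l) M hMX] at hsec
      have hzz : -z - (α l : ℤ) * ((B * N / α l : ℕ) + 1) = (-(c + δ) - α l * ((B * N / α l : ℕ) + 1)) +
          MvPolynomial.eval (fun j => (x j : ℤ)) (-F) := by
        rw [map_neg, hzδ]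
        ring
      rw [hzz] at hsec
      have hsub := norm_sub_le (∑ m ∈ Icc 1 (B * N / α l), g l (B * N / α l + 1 - m) * exI (fun m => ((θ m : ℝ) : ℂ))
          (((α l * m : ℕ) : ℤ) + ((-(c + δ) - α l * ((B * N / α l : ℕ) + 1)) + MvPolynomial.eval (fun j => (x j : ℤ)) (-F))))
        (∑ m ∈ Icc 1 (B * N / α l - M), g l (B * N / α l + 1 - m) * exI (fun m => ((θ m : ℝ) : ℂ))
          (((α l * m : ℕ) : ℤ) + ((-(c + δ) - α l * ((B * N / α l : ℕ) + 1)) + MvPolynomial.eval (fun j => (x j : ℤ)) (-F))))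
      rw [hPm]
      refine ⟨hα2, ?_⟩
      by_contra hcon
      push Not at hcon
      have f1 := hcon (B * N / α l) (Nat.mul_div_le _ _)
      have f2 := hcon (B * N / α l - M) ((Nat.mul_le_mul_left _ (Nat.sub_le _ _)).trans (Nat.mul_div_le _ _))
      linarith
  have hcard : ((Ω.filter bad).card : ℝ) ≤ ∑ δ ∈ Sh, ∑ l : ι, (((Ω.filter (Pp δ l)).card : ℝ) + ((Ω.filter (Pm δ l)).card : ℝ)) := by
    have e1 := (card_le_card hcover).trans card_biUnion_le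
    have e2 : ∑ δ ∈ Sh, ((univ : Finset ι).biUnion (fun l => Ω.filter (Pp δ l) ∪ Ω.filter (Pm δ l))).card ≤
        ∑ δ ∈ Sh, ∑ l : ι, ((Ω.filter (Pp δ l)).card + (Ω.filter (Pm δ l)).card) := by
      apply sum_le_sum
      intro δ _
      refine card_biUnion_le.trans ?_
      apply sum_le_sum
      intro l _
      exact card_union_le _ _
    exact_mod_cast e1.trans e2
  refine hcard.trans ?_
  have e3 : ∑ δ ∈ Sh, ∑ l : ι, (((Ω.filter (Pp δ l)).card : ℝ) + ((Ω.filter (Pm δ l)).card : ℝ)) ≤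
      ∑ _δ ∈ Sh, ∑ _l : ι, (2 * ((Ω.card : ℝ) / L ^ V')) := by
    apply sum_le_sum
    intro δ hδ
    apply sum_le_sum
    intro l _
    have := hpos δ hδ l
    have := hneg δ hδ l
    linarith
  refine e3.trans ?_
  rw [sum_const, sum_const, card_univ, nsmul_eq_mul, nsmul_eq_mul]
  have hc0 : (0 : ℝ) ≤ Ω.card := Nat.cast_nonneg _
  calc (Sh.card : ℝ) * ((Fintype.card ι : ℝ) * (2 * ((Ω.card : ℝ) / L ^ V'))) ≤
      L ^ (A + 1) * (L ^ T * (L * ((Ω.card : ℝ) / L ^ V'))) := by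
        gcongr
        linarith
    _ = (Ω.card : ℝ) / L ^ V := by
        have e5 : L ^ V' = L ^ V * (L ^ (A + 1) * (L ^ T * L)) := by rw [hV']; ring
        have e6 : 0 < L ^ (A + 1) := by positivity
        have e7 : 0 < L ^ T := by positivity
        have e8 : 0 < L ^ V := by positivity
        rw [e5]
        obtain ⟨P, hP⟩ : ∃ P, P = L ^ (A + 1) := ⟨_, rfl⟩
        obtain ⟨Q, hQ⟩ : ∃ Q, Q = L ^ T := ⟨_, rfl⟩
        obtain ⟨R, hR⟩ : ∃ R, R = L ^ V := ⟨_, rfl⟩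
        rw [← hP] at e6 ⊢
        rw [← hQ] at e7 ⊢
        rw [← hR] at e8 ⊢
        field_simp

end Pool.Agent.H56.LN
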