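import Pool.Agent.H56.PD.Tup
import Pool.Graph.R_seed8.Y885.MU5

/-! Sums of a fine function at shifts near the values of polynomials at integers with restricted digits: one shift. -/

set_option autoImplicit false

namespace Pool.Agent.H56.LN

open Finset
open Pool.Agent.Y885
open Pool.Agent.H373R2.T7
open Pool.Agent.H56.PD

/-- one shift, one sum -/
theorem one_shift (b n : ℕ) (hb : 2 ≤ b) (F : MvPolynomial (Fin n) ℤ) (hF : 1 ≤ F.totalDegree) (B C W T U V : ℕ)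
    (θ : ℕ → ℝ) (hθ : Fine θ) :
    ∃ N₀ : ℕ, ∀ N : ℕ, N₀ ≤ N → ∀ k : ℕ, b ^ (F.totalDegree * k) ≤ B * N →
      (N : ℝ) ≤ (b : ℝ) ^ (F.totalDegree * k) * Real.log N ^ W →
      ∀ Dg : Fin n → ℕ → Finset ℕ, (∀ i, ∀ j < k, Dg i j ⊆ range b ∧ 2 ≤ (Dg i j).card) →
      ∀ c : ℤ, |c| ≤ (C : ℤ) * N → ∀ α : ℕ, 1 ≤ α → ∀ g : ℕ → ℂ,
      (∀ m, 1 ≤ m → α * m ≤ B * N → ‖g m‖ ≤ Real.log N ^ T) →
      ∀ Ω : Finset (Fin n → ℕ), (Ω = Fintype.piFinset fun i => withDigits b k (Dg i)) →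
      ∀ bad : (Fin n → ℕ) → Prop, ∀ _hd : DecidablePred bad,
      (∀ x ∈ Ω, bad x → ∃ M : ℕ, α * M ≤ B * N ∧ (N : ℝ) / Real.log N ^ U <
        ‖∑ m ∈ Icc 1 M, g m * exI (fun m => ((θ m : ℝ) : ℂ))
          (((α * m : ℕ) : ℤ) + (c + MvPolynomial.eval (fun j => (x j : ℤ)) F))‖) →
      ((Ω.filter bad).card : ℝ) ≤ (Ω.card : ℝ) / Real.log N ^ V := by
  classical
  obtain ⟨U', hU'⟩ : ∃ U', U' = U + V + 1 := ⟨_, rfl⟩
  obtain ⟨CF, hCF⟩ := size_vec b n hb F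
  obtain ⟨M₁, hM₁⟩ : ∃ M₁, M₁ = 3 + 2 * B + C + CF * B := ⟨_, rfl⟩
  obtain ⟨cl, K₁, hlaw⟩ := law_vec b n hb F hF (M₁ + W + W * b) (4 * U' + 4 * (T + 1) + 7)
  obtain ⟨K₂, hprob⟩ := tl_probZ b 8 cl hb (by norm_num) θ hθ (T + 1) U'
  obtain ⟨n1, hn1⟩ := ev_L' (5 + b * ((K₁ + K₂ + b ^ (T + U + V + 1) * M₁ + 2 : ℕ) : ℝ))
  refine ⟨n1 + 3, fun N hN k hk1 hk2 Dg hDg c hc α hα g hg Ω hΩ bad hd hbad => ?_⟩
  have hNpos : (0 : ℝ) < N := by exact_mod_cast (by omega : 0 < N)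
  obtain ⟨K, hMK, hKM, hlogK, hscale⟩ := scaleM b W M₁ N hb (by omega) (by omega)
  obtain ⟨L, hL⟩ : ∃ L, L = Real.log (N : ℝ) := ⟨_, rfl⟩
  have a1 := hn1 N (by omega)
  rw [← hL] at a1 hlogK hg hbad ⊢
  have hbK0 : (0 : ℝ) ≤ b * ((K₁ + K₂ + b ^ (T + U + V + 1) * M₁ + 2 : ℕ) : ℝ) := by positivity
  have hL5 : 5 ≤ L := by linarith
  have hL0 : 0 < L := by linarith
  have hL1 : 1 ≤ L := by linarith
  have hlogK := hlogK hL1
  have hb0 : (0 : ℝ) < b := by exact_mod_cast (by omega : 0 < b)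
  have hb1 : (1 : ℝ) ≤ b := by exact_mod_cast (by omega : 1 ≤ b)
  have hKbig : K₁ + K₂ + b ^ (T + U + V + 1) * M₁ + 2 ≤ K := by
    have e1 : b * ((K₁ + K₂ + b ^ (T + U + V + 1) * M₁ + 2 : ℕ) : ℝ) ≤ b * K := by linarith
    have e2 := le_of_mul_le_mul_left e1 hb0
    exact_mod_cast e2
  have hK0 : (0 : ℝ) < K := by exact_mod_cast (by omega : 0 < K)
  have hK1 : (1 : ℝ) ≤ K := by exact_mod_cast (by omega : 1 ≤ K)
  have hM₁1 : 1 ≤ M₁ := by omega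
  have hbM : (b : ℝ) ^ (T + U + V + 1) * M₁ ≤ K := by
    exact_mod_cast (by omega : b ^ (T + U + V + 1) * M₁ ≤ K)
  have hbT : ∀ j ≤ T + U + V + 1, (b : ℝ) ^ j ≤ K := by
    intro j hj
    have e1 : (b : ℝ) ^ j ≤ (b : ℝ) ^ (T + U + V + 1) := pow_le_pow_right₀ hb1 hj
    have e2 : (1 : ℝ) ≤ M₁ := by exact_mod_cast hM₁1
    have e3 : (0 : ℝ) < (b : ℝ) ^ (T + U + V + 1) := by positivity
    nlinarith
  -- the law
  obtain ⟨e, he1, he2⟩ := hscale (F.totalDegree * k) (hk1.trans (Nat.mul_le_mul_right _ (by omega))) hk2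
  obtain ⟨hl1, hcard⟩ := hlaw k K e (by omega) he2 he1 Dg hDg c
  rw [← hΩ] at hl1 hcard
  have hcard0 : (0 : ℝ) < Ω.card := by exact_mod_cast hcard
  have hsize : ∀ x ∈ Ω, |MvPolynomial.eval (fun j => (x j : ℤ)) F| ≤ (CF * B : ℕ) * (N : ℤ) := by
    intro x hx
    have e1 := hCF k Dg x (by rw [← hΩ]; exact hx)
    refine e1.trans ?_
    have e2 : CF * b ^ (F.totalDegree * k) ≤ (CF * B) * N := by
      calc CF * b ^ (F.totalDegree * k) ≤ CF * (B * N) := Nat.mul_le_mul_left _ hk1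
        _ = _ := by ring
    exact_mod_cast e2
  have hLK : ∀ j ≤ T + U + V + 1, L ^ j ≤ (K : ℝ) ^ (j + 1) := by
    intro j hj
    calc L ^ j ≤ ((K : ℝ) * b) ^ j := pow_le_pow_left₀ hL0.le hlogK _
      _ = (b : ℝ) ^ j * (K : ℝ) ^ j := by rw [mul_pow]; ring
      _ ≤ K * (K : ℝ) ^ j := mul_le_mul_of_nonneg_right (hbT j hj) (by positivity)
      _ = _ := by rw [pow_succ]; ring
  have hNz : (1 : ℤ) ≤ N := by exact_mod_cast (by omega : 1 ≤ N)
  have hMKz : ((3 + 2 * B + C + CF * B : ℕ) : ℤ) * N ≤ (b : ℤ) ^ K := by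
    rw [← hM₁]
    exact_mod_cast hMK
  have hmain := hprob K (by omega) (Fin n → ℕ) Ω (fun _ => ((Ω.card : ℝ))⁻¹)
    (fun x => c + MvPolynomial.eval (fun j => (x j : ℤ)) F) hl1 (B * N)
    (le_trans (Nat.mul_le_mul_right _ (by omega)) hMK)
    (fun x hx => by
      have e1 := hsize x hx
      have e3 : (0 : ℤ) ≤ (B : ℤ) * N := by positivity
      have e4 : (0 : ℤ) ≤ (C : ℤ) * N := by positivity
      have e5 : (0 : ℤ) ≤ (CF : ℤ) * B * N := by positivity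
      rw [abs_le] at e1 hc
      push_cast at e1 hMKz ⊢
      constructor <;> nlinarith [e1.1, e1.2, hc.1, hc.2])
    1 (by
      push_cast
      exact one_le_pow₀ hK1) (fun _ => α) (fun _ => g) (fun _ => hα)
    (fun _ m hm1 hm2 => (hg m hm1 hm2).trans (hLK T (by omega)))
    bad hd (fun x hx hbx => by
      obtain ⟨M, hM, hlt⟩ := hbad x hx hbx
      refine ⟨0, M, hM, lt_of_le_of_lt ?_ hlt⟩
      rw [div_le_div_iff₀ (by positivity) (by positivity)]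
      have f1 : ((b ^ K : ℕ) : ℝ) ≤ b * M₁ * N := by exact_mod_cast hKM
      calc ((b ^ K : ℕ) : ℝ) * L ^ U ≤ (b * M₁ * N) * ((K : ℝ) * b) ^ U :=
            mul_le_mul f1 (pow_le_pow_left₀ hL0.le hlogK _) (by positivity) (by positivity)
        _ = N * (((b : ℝ) ^ (U + 1) * M₁) * (K : ℝ) ^ U) := by rw [mul_pow, pow_succ]; ring
        _ ≤ N * (K * (K : ℝ) ^ U) := by
            apply mul_le_mul_of_nonneg_left _ hNpos.le
            apply mul_le_mul_of_nonneg_right _ (by positivity)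
            refine le_trans ?_ hbM
            apply mul_le_mul_of_nonneg_right _ (Nat.cast_nonneg _)
            exact pow_le_pow_right₀ hb1 (by omega)
        _ = N * (K : ℝ) ^ (U + 1) := by rw [pow_succ]; ring
        _ ≤ N * (K : ℝ) ^ U' := by
            apply mul_le_mul_of_nonneg_left _ hNpos.le
            exact pow_le_pow_right₀ hK1 (by omega))
  have e1 : ∑ x ∈ Ω, (if bad x then ((Ω.card : ℝ))⁻¹ else 0) = ((Ω.filter bad).card : ℝ) * ((Ω.card : ℝ))⁻¹ := by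
    rw [← sum_filter, sum_const, nsmul_eq_mul]
  rw [e1, mul_inv_le_iff₀ hcard0] at hmain
  refine hmain.trans ?_
  rw [one_div, inv_mul_eq_div]
  apply div_le_div_of_nonneg_left hcard0.le (by positivity)
  calc L ^ V ≤ (K : ℝ) ^ (V + 1) := hLK V (by omega)
    _ ≤ _ := pow_le_pow_right₀ hK1 (by omega)

end Pool.Agent.H56.LN
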