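import Pool.Agent.H56.LN.Coord
import Pool.Graph.R_seed8.W93.TD3

/-! Products of several shifted factors near the values of polynomials at integers with restricted digits: tuples. -/

set_option autoImplicit false

namespace Pool.Agent.H56.LN

open Finset
open Pool.Agent.Y885
open Pool.Agent.H373R2.T7
open Pool.Agent.H56.PD

/-- the main theorem on tuples -/
theorem tuples (s b n : ℕ) (hb : 2 ≤ b) (F : Fin s → MvPolynomial (Fin n) ℤ) (hF : ∀ i, 1 ≤ (F i).totalDegree)
    (B W A T U : ℕ) (θ : ℕ → ℝ) (hθ : Fine θ) :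
    ∃ N₀ : ℕ, ∀ N : ℕ, N₀ ≤ N → ∀ k : Fin s → ℕ, (∀ i, b ^ ((F i).totalDegree * k i) ≤ B * N) →
      (∀ i, (N : ℝ) ≤ (b : ℝ) ^ ((F i).totalDegree * k i) * Real.log N ^ W) →
      ∀ Dg : Fin s → Fin n → ℕ → Finset ℕ, (∀ l i, ∀ j < k l, Dg l i j ⊆ range b ∧ 2 ≤ (Dg l i j).card) →
      ∀ c : Fin s → ℤ, (∀ i, |c i| ≤ (B : ℤ) * N) → ∀ D : ℕ, (D : ℝ) ≤ Real.log N ^ T →
      ∀ (α : Fin D → Fin s → ℕ) (g : Fin D → ℕ → ℂ), (∀ l i, 1 ≤ α l i) → (∀ l m, ‖g l m‖ ≤ Real.log N ^ T) →
      ∀ Ω : Fin s → Finset (Fin n → ℕ), (∀ l, Ω l = Fintype.piFinset fun i => withDigits b (k l) (Dg l i)) →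
      ∀ bad : (Fin s → Fin n → ℕ) → Prop, ∀ _hd : DecidablePred bad,
      (∀ x ∈ Fintype.piFinset Ω, bad x → ∃ z : Fin s → ℤ,
        (∀ i, |((z i - (c i + MvPolynomial.eval (fun j => (x i j : ℤ)) (F i)) : ℤ) : ℝ)| ≤ Real.log N ^ A) ∧
        ∃ l, ∃ J : Finset (Fin s), ∃ i ∈ J, ∃ M : ℕ, α l i * M ≤ B * N ∧ (N : ℝ) / Real.log N ^ U <
        ‖∑ m ∈ Icc 1 M, g l m * ∏ i ∈ J, ev θ (((α l i * m : ℕ) : ℤ) + z i)‖) →
      (((Fintype.piFinset Ω).filter bad).card : ℝ) ≤ ((Fintype.piFinset Ω).card : ℝ) / Real.log N ^ U := by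
  classical
  obtain ⟨T', hT'⟩ : ∃ T', T' = T + s + (A + 1) * s := ⟨_, rfl⟩
  choose N1 h1 using fun i => one_coord b n hb (F i) (hF i) B W A T' U (U + 1) θ hθ
  obtain ⟨N2, h2⟩ := ev_L' ((s + 5 : ℕ) : ℝ)
  refine ⟨∑ i, N1 i + N2 + 3, fun N hN k hk1 hk2 Dg hDg c hc D hD α g hα hg Ω hΩ bad hd hbad => ?_⟩
  have hN1 : ∀ i, N1 i ≤ N := fun i => by
    have := single_le_sum (f := N1) (fun _ _ => Nat.zero_le _) (mem_univ i)
    omega
  have hLs' := h2 N (by omega)
  have hL1 : (1 : ℝ) ≤ Real.log N := le_trans (by exact_mod_cast (by omega : 1 ≤ s + 5)) hLs'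
  have hL3 : (3 : ℝ) ≤ Real.log N := le_trans (by exact_mod_cast (by omega : 3 ≤ s + 5)) hLs'
  have hL0 : 0 < Real.log N := by linarith
  have hN0 : (0 : ℝ) < N := by exact_mod_cast (by omega : 0 < N)
  -- one of the sets is empty
  by_cases hemp : ∃ l, (Ω l).card = 0
  · obtain ⟨l, hl⟩ := hemp
    have e0 : (Fintype.piFinset Ω).card = 0 := by
      rw [Fintype.card_piFinset]
      exact prod_eq_zero (mem_univ l) hl
    have e1 : ((Fintype.piFinset Ω).filter bad).card = 0 := by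
      have := card_filter_le (Fintype.piFinset Ω) bad
      omega
    rw [e1, e0, Nat.cast_zero, zero_div]
  push Not at hemp
  have hcard : ∀ l, (0 : ℝ) < (Ω l).card := fun l => by exact_mod_cast Nat.pos_of_ne_zero (hemp l)
  have hex : ∀ m : ℤ, ‖ev θ m‖ ≤ 1 := ev_norm θ hθ.1.1
  obtain ⟨w, hw⟩ : ∃ w, w = ⌊Real.log N ^ A⌋₊ := ⟨_, rfl⟩
  have hwr : (w : ℝ) ≤ Real.log N ^ A := by rw [hw]; exact Nat.floor_le (by positivity)
  obtain ⟨p, hp⟩ : ∃ p : Fin s → (Fin n → ℕ) → ℝ, p = fun i _ => 1 / ((Ω i).card : ℝ) := ⟨_, rfl⟩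
  have hsum : ∀ i, ∑ v ∈ Ω i, p i v = 1 := by
    intro i
    rw [hp]
    simp only
    rw [sum_const, nsmul_eq_mul]
    have := (hcard i).ne'
    field_simp
  have hp0 : ∀ i v, 0 ≤ p i v := by
    intro i v
    rw [hp]
    exact div_nonneg zero_le_one (hcard i).le
  obtain ⟨FF, hFF⟩ : ∃ FF : Fin s → (Fin n → ℕ) → ℤ, FF = fun l x => MvPolynomial.eval (fun j => (x j : ℤ)) (F l) := ⟨_, rfl⟩
  have hFFe : ∀ l x, MvPolynomial.eval (fun j => (x j : ℤ)) (F l) = FF l x := fun l x => by rw [hFF]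
  simp only [hFFe] at hbad h1
  obtain ⟨bd, hbd⟩ : ∃ bd : Fin s → (Fin s → Fin n → ℕ) → Prop, bd = fun i x =>
      ∃ z : Fin s → ℤ, (∀ j, |((z j - (c j + FF j (x j)) : ℤ) : ℝ)| ≤ Real.log N ^ A) ∧
      ∃ l, ∃ J : Finset (Fin s), i ∉ J ∧ ∃ M : ℕ, α l i * M ≤ B * N ∧
        (N : ℝ) / Real.log N ^ U < ‖∑ m ∈ Icc 1 M, (g l m * ∏ j ∈ J, ev θ (((α l j * m : ℕ) : ℤ) + z j)) *
          ev θ (((α l i * m : ℕ) : ℤ) + z i)‖ := ⟨_, rfl⟩
  have hb1 : ∀ i : Fin s, ∑ ω ∈ Fintype.piFinset Ω, (∏ i, p i (ω i)) * (if bd i ω then (1 : ℝ) else 0) ≤ 1 / Real.log N ^ (U + 1) := by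
    intro i
    rw [← Pool.Agent.W93.TD.avg_w Ω p hsum i (fun ω => if bd i ω then (1 : ℝ) else 0)]
    have hm1 : ∀ m ∈ Fintype.piFinset Ω, (∏ j, p j (m j)) *
        ∑ v ∈ Ω i, p i v * (if bd i (Function.update m i v) then (1 : ℝ) else 0) ≤ (∏ j, p j (m j)) * (1 / Real.log N ^ (U + 1)) := by
      intro m hm
      apply mul_le_mul_of_nonneg_left _ (prod_nonneg fun j _ => hp0 j _)
      have hι : (Fintype.card (Fin D × Finset (Fin s) × (Fin s → Fin (2 * w + 1))) : ℝ) ≤ Real.log N ^ T' := by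
        rw [Fintype.card_prod, Fintype.card_prod, Fintype.card_fin, Fintype.card_finset, Fintype.card_fin, Fintype.card_fun,
          Fintype.card_fin, Fintype.card_fin]
        have a1 : (1 : ℝ) ≤ Real.log N ^ A := one_le_pow₀ hL1
        have a2 : ((2 * w + 1 : ℕ) : ℝ) ≤ Real.log N ^ (A + 1) := by
          push_cast
          calc 2 * (w : ℝ) + 1 ≤ 3 * Real.log N ^ A := by linarith
            _ ≤ Real.log N * Real.log N ^ A := mul_le_mul_of_nonneg_right hL3 (by positivity)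
            _ = _ := by ring
        push_cast at a2 ⊢
        calc (D : ℝ) * (2 ^ s * (2 * (w : ℝ) + 1) ^ s) ≤ Real.log N ^ T * (Real.log N ^ s * (Real.log N ^ (A + 1)) ^ s) := by
              gcongr
              linarith
          _ = _ := by rw [hT', ← pow_mul, pow_add, pow_add]; ring
      have key := h1 i N (hN1 i) (k i) (hk1 i) (hk2 i) (Dg i) (hDg i) (c i) (hc i)
        (Fin D × Finset (Fin s) × (Fin s → Fin (2 * w + 1))) hι (fun r => α r.1 i)
        (fun r q => g r.1 q * ∏ j ∈ r.2.1, ev θ (((α r.1 j * q : ℕ) : ℤ) + (c j + FF j (m j) + (((r.2.2 j : ℕ) : ℤ) - w))))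
        (fun r => hα r.1 i) (fun r q => by
          rw [norm_mul]
          have g1 : ‖∏ j ∈ r.2.1, ev θ (((α r.1 j * q : ℕ) : ℤ) + (c j + FF j (m j) + (((r.2.2 j : ℕ) : ℤ) - w)))‖ ≤ 1 := by
            rw [norm_prod]
            exact prod_le_one (fun _ _ => norm_nonneg _) (fun i _ => hex _)
          calc _ ≤ Real.log N ^ T * 1 := mul_le_mul (hg _ q) g1 (norm_nonneg _) (by positivity)
            _ ≤ _ := by rw [mul_one]; exact pow_le_pow_right₀ hL1 (by omega))
        (Ω i) (hΩ i) (fun v => bd i (Function.update m i v)) (Classical.decPred _) (by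
          intro v _ hv
          rw [hbd] at hv
          obtain ⟨z, hz, l, J, hJ, M, hM, hlt⟩ := hv
          have hzi := hz i
          rw [Function.update_self] at hzi
          refine ⟨z i, hzi, ?_⟩
          have hfl : ∀ j, j ≠ i → (z j - (c j + FF j (m j)) + w).toNat < 2 * w + 1 ∧ 0 ≤ z j - (c j + FF j (m j)) + w := by
            intro j hj
            have a1 := hz j
            rw [Function.update_of_ne hj] at a1
            have a2 : (z j - (c j + FF j (m j))).natAbs ≤ w := by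
              rw [hw]
              apply Nat.le_floor
              rw [Nat.cast_natAbs, Int.cast_abs]
              exact a1
            omega
          refine ⟨(l, J, fun j => if hj : j ≠ i then ⟨(z j - (c j + FF j (m j)) + w).toNat, (hfl j hj).1⟩ else ⟨0, by omega⟩),
            M, hM, ?_⟩
          refine lt_of_lt_of_eq hlt ?_
          congr 1
          apply sum_congr rfl
          intro q _
          congr 2
          apply prod_congr rfl
          intro j hj
          have hji : j ≠ i := fun h => hJ (h ▸ hj)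
          simp only
          rw [dif_pos hji]
          congr 2
          simp only
          have := (hfl j hji).2
          rw [Int.toNat_of_nonneg this]
          ring)
      have e1 : ∑ v ∈ Ω i, p i v * (if bd i (Function.update m i v) then (1 : ℝ) else 0) =
          (((Ω i).filter (fun v => bd i (Function.update m i v))).card : ℝ) / (Ω i).card := by
        rw [hp]
        simp only [mul_ite, mul_one, mul_zero]
        rw [← sum_filter, sum_const, nsmul_eq_mul, mul_one_div]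
      rw [e1, div_le_iff₀ (hcard i), one_div, inv_mul_eq_div]
      exact key
    refine (sum_le_sum hm1).trans (le_of_eq ?_)
    rw [← sum_mul, Pool.Agent.W93.TD.total_w Ω p hsum, one_mul]
  have hpt : ∀ ω ∈ Fintype.piFinset Ω, (∏ i, p i (ω i)) * (if bad ω then (1 : ℝ) else 0) ≤
      ∑ i : Fin s, (∏ i, p i (ω i)) * (if bd i ω then (1 : ℝ) else 0) := by
    intro ω hω
    have hPP : 0 ≤ ∏ i, p i (ω i) := prod_nonneg fun j _ => hp0 j _
    have t1 : ∀ i ∈ (univ : Finset (Fin s)), 0 ≤ (∏ i, p i (ω i)) * (if bd i ω then (1 : ℝ) else 0) := fun i _ =>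
      mul_nonneg hPP (by split_ifs <;> norm_num)
    by_cases hEω : bad ω
    swap
    · rw [if_neg hEω, mul_zero]
      exact sum_nonneg t1
    rw [if_pos hEω, mul_one]
    obtain ⟨z, hz, l, J, i, hiJ, M, hM, hlt⟩ := hbad ω hω hEω
    have hbi : bd i ω := by
      rw [hbd]
      refine ⟨z, hz, l, J.erase i, notMem_erase i J, M, hM, ?_⟩
      refine lt_of_lt_of_le hlt (le_of_eq ?_)
      congr 1
      apply sum_congr rfl
      intro q _
      rw [← mul_prod_erase J _ hiJ]
      ring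
    have h3 := single_le_sum t1 (mem_univ i)
    rwa [if_pos hbi, mul_one] at h3
  have htot : ∑ ω ∈ Fintype.piFinset Ω, (∏ i, p i (ω i)) * (if bad ω then (1 : ℝ) else 0) ≤ 1 / Real.log N ^ U := by
    refine (sum_le_sum hpt).trans ?_
    rw [sum_comm]
    refine (sum_le_sum fun i _ => hb1 i).trans ?_
    rw [sum_const, card_univ, Fintype.card_fin, nsmul_eq_mul, mul_one_div, div_le_div_iff₀ (by positivity) (by positivity), one_mul, pow_succ,
      mul_comm]
    apply mul_le_mul_of_nonneg_left _ (by positivity)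
    push_cast at hLs'
    linarith
  have hconst : ∀ ω : Fin s → (Fin n → ℕ), ∏ i, p i (ω i) = 1 / ((Fintype.piFinset Ω).card : ℝ) := by
    intro ω
    rw [hp, Fintype.card_piFinset]
    push_cast
    simp only [one_div, prod_inv_distrib]
  simp only [hconst] at htot
  rw [← mul_sum, ← Finset.sum_filter, sum_const, nsmul_eq_mul, mul_one] at htot
  have hPi : (0 : ℝ) < ((Fintype.piFinset Ω).card : ℝ) := by
    rw [Fintype.card_piFinset]
    push_cast
    exact prod_pos fun i _ => hcard i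
  rw [one_div_mul_eq_div, div_le_iff₀ hPi] at htot
  refine htot.trans (le_of_eq ?_)
  ring

end Pool.Agent.H56.LN
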